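import Pool.Agent.W_fb73a4_h20.MZ

/-!
MP_fb73a4_co. Planar graphs without cycles of length 4, 5, 6, without a 7-cycle that has an edge in
a triangle, and without an 8-cycle that has two edges in triangles, are 3-choosable.
-/

set_option autoImplicit false

namespace Pool.Agent.W_fb73a4_eight.EightCycles

open Pool.Agent.W_fb73a4_h20

/-- Let `G` be a finite planar graph (MacLane's criterion) without cycles of length 4, 5, 6, such
that no 7-cycle has an edge which lies in a triangle, and every 8-cycle has at most one edge which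
lies in a triangle. Then `G` is 3-choosable. -/
theorem result (V : Type) [Fintype V] (G : SimpleGraph V) (hplanar : MacLane G)
    (h456 : ∀ (v : V) (c : G.Walk v v), c.IsCycle →
      c.length ≠ 4 ∧ c.length ≠ 5 ∧ c.length ≠ 6)
    (h7 : ∀ (v : V) (c : G.Walk v v), c.IsCycle → c.length = 7 →
      ∀ a b t : V, s(a, b) ∈ c.edges → ¬ (G.Adj a t ∧ G.Adj b t))
    (h8 : ∀ (v : V) (c : G.Walk v v), c.IsCycle → c.length = 8 →
      ∀ a b t a' b' t' : V, s(a, b) ∈ c.edges → s(a', b') ∈ c.edges →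
        G.Adj a t ∧ G.Adj b t → G.Adj a' t' ∧ G.Adj b' t' → s(a, b) = s(a', b'))
    (L : V → Finset ℕ) (hL : ∀ v, 3 ≤ (L v).card) :
    ∃ f : V → ℕ, (∀ v, f v ∈ L v) ∧ ∀ u v, G.Adj u v → f u ≠ f v :=
  main12 G hplanar h456 (fun v c hc hl a b t hab h1 h2 => h7 v c hc hl a b t hab ⟨h1, h2⟩)
    (fun v c hc hl a b t a' b' t' hab hab' hne h1 h2 h3 h4 =>
      hne (h8 v c hc hl a b t a' b' t' hab hab' ⟨h1, h2⟩ ⟨h3, h4⟩)) L hL

end Pool.Agent.W_fb73a4_eight.EightCycles
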